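import Pool.Agent.Y445.ST.MorA

/-!
ST-MOR: the boundary integral of a nearly conformal map is small.
-/

set_option autoImplicit false
open Filter Topology MeasureTheory Metric

namespace Pool.Agent.Y445.ST
open Pool.Agent.Y320.ST

lemma l_sq {x0 x1 y0 y1 l : ℝ} (hx : x0 < x1) (hy : y0 < y1)
    (h1 : x1 - x0 ≤ 2 * (y1 - y0)) (h2 : y1 - y0 ≤ 2 * (x1 - x0))
    (hl : l = max (x1 - x0) (y1 - y0)) : l ^ 2 ≤ 2 * ((x1 - x0) * (y1 - y0)) := by
  have a1 : 0 < x1 - x0 := by linarith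
  have a2 : 0 < y1 - y0 := by linarith
  rcases le_total (y1 - y0) (x1 - x0) with h | h
  · rw [hl, max_eq_left h, pow_two]
    calc (x1 - x0) * (x1 - x0) ≤ (x1 - x0) * (2 * (y1 - y0)) := by gcongr
      _ = _ := by ring
  · rw [hl, max_eq_right h, pow_two]
    calc (y1 - y0) * (y1 - y0) ≤ 2 * (x1 - x0) * (y1 - y0) := by gcongr
      _ = _ := by ring

/-- the general bound -/
lemma loc1 {u : ℂ → ℂ} (hu : Continuous u) {x0 x1 y0 y1 l b : ℝ} (hx : x0 < x1) (hy : y0 < y1)
    (hl : l = max (x1 - x0) (y1 - y0)) (hb0 : 0 ≤ b) {z : ℂ}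
    (hb : ∀ w ∈ Rect x0 x1 y0 y1, dist (u w) (u z) ≤ b) :
    ‖rectInt u x0 x1 y0 y1‖ ≤ 4 * (l * b) := by
  have hxl : x1 - x0 ≤ l := by rw [hl]; exact le_max_left _ _
  have hyl : y1 - y0 ≤ l := by rw [hl]; exact le_max_right _ _
  have h1 : rectInt u x0 x1 y0 y1 = rectInt (fun w => u w - (u z + 0 * w)) x0 x1 y0 y1 := by
    rw [rectInt_sub hu (by fun_prop : Continuous fun w : ℂ => u z + 0 * w), rectInt_aff, sub_zero]
  rw [h1]
  refine rectInt_bound hx.le hy.le hxl hyl hb0 fun w hw => ?_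
  rw [zero_mul, add_zero, ← dist_eq_norm]
  exact hb w hw

/-- the bound at points where the map is nearly conformal -/
lemma loc3 {u : ℂ → ℂ} (hu : Continuous u) {x0 x1 y0 y1 l b s η : ℝ} (hx : x0 < x1) (hy : y0 < y1)
    (h1 : x1 - x0 ≤ 2 * (y1 - y0)) (h2 : y1 - y0 ≤ 2 * (x1 - x0))
    (hl : l = max (x1 - x0) (y1 - y0)) {z : ℂ} (hz : z ∈ Rect x0 x1 y0 y1)
    (hb : ∀ w ∈ Rect x0 x1 y0 y1, dist (u w) (u z) ≤ b) (hs0 : 0 < s) (hs1 : s ≤ 1)
    (hη0 : 0 < η) (hη1 : η ≤ 1 / 2) {k : ℂ}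
    (hk : ∀ w ∈ Rect x0 x1 y0 y1, ‖u w - u z - k * (w - z)‖ ≤ (η * ‖k‖ + s) * ‖w - z‖) :
    ‖rectInt u x0 x1 y0 y1‖ ≤ (96 * η + 16 * s) * ((x1 - x0) * (y1 - y0)) + 16 * η * b ^ 2 := by
  have hxl : x1 - x0 ≤ l := by rw [hl]; exact le_max_left _ _
  have hyl : y1 - y0 ≤ l := by rw [hl]; exact le_max_right _ _
  have hl0 : 0 < l := by linarith
  have hl2 := l_sq hx hy h1 h2 hl
  obtain ⟨a, ha⟩ : ∃ a : ℝ, a = (x1 - x0) * (y1 - y0) := ⟨_, rfl⟩
  rw [← ha] at hl2 ⊢
  obtain ⟨K, hK⟩ : ∃ K : ℝ, K = ‖k‖ := ⟨_, rfl⟩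
  have hK0 : 0 ≤ K := by rw [hK]; exact norm_nonneg _
  have e1 : rectInt u x0 x1 y0 y1 =
      rectInt (fun w => u w - ((u z - k * z) + k * w)) x0 x1 y0 y1 := by
    rw [rectInt_sub hu (by fun_prop : Continuous fun w : ℂ => (u z - k * z) + k * w), rectInt_aff,
      sub_zero]
  have e2 : ‖rectInt u x0 x1 y0 y1‖ ≤ 4 * (l * ((η * K + s) * (2 * l))) := by
    rw [e1]
    refine rectInt_bound hx.le hy.le hxl hyl (by positivity) fun w hw => ?_
    have e3 : u w - ((u z - k * z) + k * w) = u w - u z - k * (w - z) := by ring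
    rw [e3, hK]
    refine (hk w hw).trans ?_
    exact mul_le_mul_of_nonneg_left (Rect_dist hxl hyl hz hw) (by positivity)
  -- the size of `k`
  have e4 : K * l ≤ 4 * b + 4 * (s * l) := by
    obtain ⟨w, hw, hw1, hw2⟩ := Rect_far hx.le hy.le hl hz
    have f1 := hk w hw
    have f2 := hb w hw
    rw [dist_eq_norm] at f2
    have f3 : ‖k * (w - z)‖ ≤ ‖u w - u z‖ + ‖u w - u z - k * (w - z)‖ := by
      have := norm_sub_le (u w - u z) (u w - u z - k * (w - z))
      rwa [sub_sub_cancel] at this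
    rw [norm_mul, ← hK] at f3
    rw [← hK] at f1
    obtain ⟨n, hn⟩ : ∃ n : ℝ, n = ‖w - z‖ := ⟨_, rfl⟩
    rw [← hn] at f1 f3 hw1 hw2
    have f4 : η * K * n ≤ 1 / 2 * (K * n) := by
      have : 0 ≤ K * n := mul_nonneg hK0 (by linarith)
      calc η * K * n = η * (K * n) := by ring
        _ ≤ _ := mul_le_mul_of_nonneg_right hη1 this
    have f5 : K * (l / 2) ≤ K * n := mul_le_mul_of_nonneg_left hw1 hK0
    have f6 : s * n ≤ s * l := mul_le_mul_of_nonneg_left hw2 hs0.le
    have f7 : (η * K + s) * n = η * K * n + s * n := by ring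
    rw [f7] at f1
    linarith
  have e5 : 8 * η * l * (K * l) ≤ 8 * η * l * (4 * b + 4 * (s * l)) :=
    mul_le_mul_of_nonneg_left e4 (by positivity)
  have e6 : 2 * (l * b) ≤ l ^ 2 + b ^ 2 := by
    have := sq_nonneg (l - b)
    have e : (l - b) ^ 2 = l ^ 2 + b ^ 2 - 2 * (l * b) := by ring
    linarith
  have e7 : 16 * η * (2 * (l * b)) ≤ 16 * η * (l ^ 2 + b ^ 2) :=
    mul_le_mul_of_nonneg_left e6 (by positivity)
  have e8 : 32 * η * s * l ^ 2 ≤ 32 * η * 1 * (2 * a) := by gcongr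
  have e9 : 16 * η * l ^ 2 ≤ 16 * η * (2 * a) := mul_le_mul_of_nonneg_left hl2 (by positivity)
  have e10 : 8 * s * l ^ 2 ≤ 8 * s * (2 * a) := mul_le_mul_of_nonneg_left hl2 (by positivity)
  have e11 : 4 * (l * ((η * K + s) * (2 * l))) = 8 * η * l * (K * l) + 8 * s * l ^ 2 := by ring
  have e12 : 8 * η * l * (4 * b + 4 * (s * l)) = 16 * η * (2 * (l * b)) + 32 * η * s * l ^ 2 := by
    ring
  have e13 : 16 * η * (l ^ 2 + b ^ 2) = 16 * η * l ^ 2 + 16 * η * b ^ 2 := by ring
  rw [e11] at e2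
  rw [e12] at e5
  rw [e13] at e7
  linarith

/-- **S_MOR** -/
theorem mor (hF : S_FAT) (hC : S_COUSIN) : S_MOR := by
  intro H A V δ hδ
  obtain ⟨C, hC0, hfat⟩ := hF H
  obtain ⟨B, hBd⟩ : ∃ B : ℝ, B = max A 0 + max V 0 := ⟨_, rfl⟩
  have hB0 : 0 ≤ B := by rw [hBd]; positivity
  obtain ⟨s, hs⟩ : ∃ s : ℝ, s = min 1 (δ / (400 * (1 + C) * (B + 1))) := ⟨_, rfl⟩
  have hs0 : 0 < s := by rw [hs]; exact lt_min one_pos (by positivity)
  have hs1 : s ≤ 1 := by rw [hs]; exact min_le_left _ _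
  have hs2 : s ≤ δ / (400 * (1 + C) * (B + 1)) := by rw [hs]; exact min_le_right _ _
  rw [le_div_iff₀ (by positivity)] at hs2
  obtain ⟨η, hη⟩ : ∃ η : ℝ, η = min (1 / 2) (min s (s * δ / (64 * (1 + C)))) := ⟨_, rfl⟩
  have hη0 : 0 < η := by rw [hη]; exact lt_min (by norm_num) (lt_min hs0 (by positivity))
  have hη1 : η ≤ 1 / 2 := by rw [hη]; exact min_le_left _ _
  have hη2 : η ≤ s := by rw [hη]; exact (min_le_right _ _).trans (min_le_left _ _)
  have hη3 : η ≤ s * δ / (64 * (1 + C)) := by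
    rw [hη]; exact (min_le_right _ _).trans (min_le_right _ _)
  refine ⟨η, hη0, ?_⟩
  intro u hu X0 X1 Y0 Y1 hX hY hA hV P1 P2 hP1 hP2 hT
  have hηe : ENNReal.ofReal η ≠ 0 := by
    rw [Ne, ENNReal.ofReal_eq_zero, not_le]
    exact hη0
  obtain ⟨O1, hPO1, hO1, hv1⟩ := P1.exists_isOpen_le_add volume hηe
  obtain ⟨O2, hPO2, hO2, hv2⟩ := (u '' P2).exists_isOpen_le_add volume hηe
  have hη2e : ENNReal.ofReal η + ENNReal.ofReal η = ENNReal.ofReal (2 * η) := by
    rw [← ENNReal.ofReal_add hη0.le hη0.le, two_mul]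
  have hv1' : volume O1 ≤ ENNReal.ofReal (2 * η) := by
    rw [← hη2e]; exact hv1.trans (add_le_add hP1 le_rfl)
  have hv2' : volume O2 ≤ ENNReal.ofReal (2 * η) := by
    rw [← hη2e]; exact hv2.trans (add_le_add hP2 le_rfl)
  -- the measures
  have humeas : Measurable u.symm := u.symm.continuous.measurable
  have hm : ∀ (ν : Measure ℂ) (x0 x1 y0 y1 : ℝ),
      ν.map u.symm (Op x0 x1 y0 y1) = ν (u '' Op x0 x1 y0 y1) := by
    intro ν x0 x1 y0 y1
    rw [Measure.map_apply humeas (Op_open _ _ _ _).measurableSet, u.preimage_symm]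
  have hfin0 : ∀ x0 x1 y0 y1, volume (Op x0 x1 y0 y1) ≠ ⊤ := fun x0 x1 y0 y1 =>
    ne_top_of_le_ne_top (Rect_compact x0 x1 y0 y1).measure_lt_top.ne
      (measure_mono (Op_sub x0 x1 y0 y1))
  have hfin1 : ∀ x0 x1 y0 y1, (volume.restrict O1) (Op x0 x1 y0 y1) ≠ ⊤ := fun x0 x1 y0 y1 =>
    ne_top_of_le_ne_top (hfin0 x0 x1 y0 y1) (Measure.restrict_apply_le _ _)
  have hfin2' : ∀ x0 x1 y0 y1, volume (u '' Op x0 x1 y0 y1) ≠ ⊤ := fun x0 x1 y0 y1 =>
    ne_top_of_le_ne_top ((Rect_compact x0 x1 y0 y1).image u.continuous).measure_lt_top.ne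
      (measure_mono (Set.image_mono (Op_sub x0 x1 y0 y1)))
  have hfin2 : ∀ x0 x1 y0 y1, (volume.map u.symm) (Op x0 x1 y0 y1) ≠ ⊤ := fun x0 x1 y0 y1 => by
    rw [hm]; exact hfin2' x0 x1 y0 y1
  have hfin3 : ∀ x0 x1 y0 y1, ((volume.restrict O2).map u.symm) (Op x0 x1 y0 y1) ≠ ⊤ :=
    fun x0 x1 y0 y1 => by
      rw [hm]
      exact ne_top_of_le_ne_top (hfin2' x0 x1 y0 y1) (Measure.restrict_apply_le _ _)
  obtain ⟨c1, hc1⟩ : ∃ c1 : ℝ, c1 = 100 * (1 + C) * (η + s) := ⟨_, rfl⟩
  obtain ⟨c2, hc2⟩ : ∃ c2 : ℝ, c2 = 4 * (1 + C) / s := ⟨_, rfl⟩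
  have hc10 : 0 ≤ c1 := by rw [hc1]; positivity
  have hc20 : 0 ≤ c2 := by rw [hc2]; positivity
  obtain ⟨Ψ, hΨ⟩ : ∃ Ψ : ℝ → ℝ → ℝ → ℝ → ℝ, Ψ = fun x0 x1 y0 y1 =>
      c1 * ((volume (Op x0 x1 y0 y1)).toReal + (volume.map u.symm (Op x0 x1 y0 y1)).toReal) +
      c2 * ((volume.restrict O1 (Op x0 x1 y0 y1)).toReal +
        ((volume.restrict O2).map u.symm (Op x0 x1 y0 y1)).toReal) := ⟨_, rfl⟩
  have hkey : ‖rectInt u X0 X1 Y0 Y1‖ ≤ Ψ X0 X1 Y0 Y1 := by
    refine hC (fun x0 x1 y0 y1 => ‖rectInt u x0 x1 y0 y1‖) Ψ ?_ ?_ ?_ ?_ X0 X1 Y0 Y1 hX hY ?_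
    · intro x0 x1 x2 y0 y1 _ _ _
      rw [rectInt_addx u.continuous x0 x1 x2]
      exact norm_add_le _ _
    · intro x0 x1 y0 y1 y2 _ _ _
      rw [rectInt_addy u.continuous x0 x1 y0 y1 y2]
      exact norm_add_le _ _
    · intro x0 x1 x2 y0 y1 h1 h2 _
      rw [hΨ]
      simp only
      have g0 := mul_le_mul_of_nonneg_left (m_addx volume hfin0 (y0 := y0) (y1 := y1) h1 h2) hc10
      have g2 := mul_le_mul_of_nonneg_left
        (m_addx (volume.map u.symm) hfin2 (y0 := y0) (y1 := y1) h1 h2) hc10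
      have g1 := mul_le_mul_of_nonneg_left
        (m_addx (volume.restrict O1) hfin1 (y0 := y0) (y1 := y1) h1 h2) hc20
      have g3 := mul_le_mul_of_nonneg_left
        (m_addx ((volume.restrict O2).map u.symm) hfin3 (y0 := y0) (y1 := y1) h1 h2) hc20
      linarith
    · intro x0 x1 y0 y1 y2 _ h1 h2
      rw [hΨ]
      simp only
      have g0 := mul_le_mul_of_nonneg_left (m_addy volume hfin0 (x0 := x0) (x1 := x1) h1 h2) hc10
      have g2 := mul_le_mul_of_nonneg_left
        (m_addy (volume.map u.symm) hfin2 (x0 := x0) (x1 := x1) h1 h2) hc10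
      have g1 := mul_le_mul_of_nonneg_left
        (m_addy (volume.restrict O1) hfin1 (x0 := x0) (x1 := x1) h1 h2) hc20
      have g3 := mul_le_mul_of_nonneg_left
        (m_addy ((volume.restrict O2).map u.symm) hfin3 (x0 := x0) (x1 := x1) h1 h2) hc20
      linarith
    · intro z hz
      -- general facts about small rectangles
      have gen : ∀ x0 x1 y0 y1 : ℝ, z ∈ Rect x0 x1 y0 y1 → x0 < x1 → y0 < y1 →
          x1 - x0 ≤ 2 * (y1 - y0) → y1 - y0 ≤ 2 * (x1 - x0) →
          ∃ b : ℝ, 0 ≤ b ∧ b ^ 2 = C * (volume (u '' Op x0 x1 y0 y1)).toReal ∧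
            ∀ w ∈ Rect x0 x1 y0 y1, dist (u w) (u z) ≤ b := by
        intro x0 x1 y0 y1 hzQ hx hy h1 h2
        refine ⟨√(C * (volume (u '' Op x0 x1 y0 y1)).toReal), Real.sqrt_nonneg _,
          Real.sq_sqrt (by positivity), fun w hw => ?_⟩
        refine Real.le_sqrt_of_sq_le ?_
        exact hfat u hu x0 x1 y0 y1 hx hy h1 h2 w hw z hzQ
      by_cases hz1 : z ∈ P1
      · obtain ⟨ρ, hρ, hball⟩ := Metric.isOpen_iff.1 hO1 z (hPO1 hz1)
        refine ⟨ρ / 2, by positivity, ?_⟩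
        intro x0 x1 y0 y1 hzQ _ hx hy hxρ hyρ h1 h2
        obtain ⟨b, hb0, hb2, hb⟩ := gen x0 x1 y0 y1 hzQ hx hy h1 h2
        obtain ⟨l, hl⟩ : ∃ l : ℝ, l = max (x1 - x0) (y1 - y0) := ⟨_, rfl⟩
        have hxl : x1 - x0 ≤ l := by rw [hl]; exact le_max_left _ _
        have hyl : y1 - y0 ≤ l := by rw [hl]; exact le_max_right _ _
        have hlρ : l < ρ / 2 := by rw [hl]; exact max_lt hxρ hyρ
        have hin : Op x0 x1 y0 y1 ⊆ O1 := by
          intro w hw
          apply hball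
          rw [mem_ball, dist_eq_norm]
          have := Rect_dist hxl hyl hzQ (Op_sub _ _ _ _ hw)
          linarith
        have k1 := loc1 u.continuous hx hy hl hb0 hb
        have k2 := amgm (a := l) (b := b) hs0
        have k3 := l_sq hx hy h1 h2 hl
        have k4 : (volume.restrict O1 (Op x0 x1 y0 y1)).toReal = (x1 - x0) * (y1 - y0) := by
          rw [Measure.restrict_apply (Op_open _ _ _ _).measurableSet,
            Set.inter_eq_self_of_subset_left hin, vol_Op hx.le hy.le]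
        rw [hΨ]
        simp only
        rw [k4, vol_Op hx.le hy.le, hm]
        obtain ⟨D, hD⟩ : ∃ D : ℝ, D = (volume (u '' Op x0 x1 y0 y1)).toReal := ⟨_, rfl⟩
        have hD0 : 0 ≤ D := by rw [hD]; exact ENNReal.toReal_nonneg
        rw [← hD] at hb2 ⊢
        obtain ⟨a, ha⟩ : ∃ a : ℝ, a = (x1 - x0) * (y1 - y0) := ⟨_, rfl⟩
        rw [← ha] at k3 ⊢
        have ha0 : 0 ≤ a := by rw [ha]; exact mul_nonneg (by linarith) (by linarith)
        have k5 : 2 * (l ^ 2 / s) ≤ c2 * a := by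
          rw [hc2]
          calc 2 * (l ^ 2 / s) ≤ 2 * (2 * a / s) := by gcongr
            _ = 4 * 1 / s * a := by ring
            _ ≤ 4 * (1 + C) / s * a := by gcongr; linarith
        have k6 : 2 * (s * b ^ 2) ≤ c1 * D := by
          rw [hb2, hc1]
          calc 2 * (s * (C * D)) = (2 * C * s) * D := by ring
            _ ≤ (100 * (1 + C) * (η + s)) * D := by
                refine mul_le_mul_of_nonneg_right ?_ hD0
                have q1 : 2 * C ≤ 100 * (1 + C) := by linarith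
                have q2 : s ≤ η + s := by linarith
                exact mul_le_mul q1 q2 hs0.le (by positivity)
            _ = _ := by ring
        have k7 : 0 ≤ c1 * a := mul_nonneg hc10 ha0
        have k8 : 0 ≤ c2 * ((volume.restrict O2).map u.symm (Op x0 x1 y0 y1)).toReal :=
          mul_nonneg hc20 ENNReal.toReal_nonneg
        linarith
      · by_cases hz2 : z ∈ P2
        · have hopen : IsOpen (u ⁻¹' O2) := hO2.preimage u.continuous
          obtain ⟨ρ, hρ, hball⟩ := Metric.isOpen_iff.1 hopen z (hPO2 ⟨z, hz2, rfl⟩)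
          refine ⟨ρ / 2, by positivity, ?_⟩
          intro x0 x1 y0 y1 hzQ _ hx hy hxρ hyρ h1 h2
          obtain ⟨b, hb0, hb2, hb⟩ := gen x0 x1 y0 y1 hzQ hx hy h1 h2
          obtain ⟨l, hl⟩ : ∃ l : ℝ, l = max (x1 - x0) (y1 - y0) := ⟨_, rfl⟩
          have hxl : x1 - x0 ≤ l := by rw [hl]; exact le_max_left _ _
          have hyl : y1 - y0 ≤ l := by rw [hl]; exact le_max_right _ _
          have hlρ : l < ρ / 2 := by rw [hl]; exact max_lt hxρ hyρ
          have hin : u '' Op x0 x1 y0 y1 ⊆ O2 := by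
            rintro _ ⟨w, hw, rfl⟩
            apply hball
            rw [mem_ball, dist_eq_norm]
            have := Rect_dist hxl hyl hzQ (Op_sub _ _ _ _ hw)
            linarith
          have k1 := loc1 u.continuous hx hy hl hb0 hb
          have k2 := amgm (a := b) (b := l) hs0
          have k3 := l_sq hx hy h1 h2 hl
          have k4 : ((volume.restrict O2).map u.symm (Op x0 x1 y0 y1)).toReal =
              (volume (u '' Op x0 x1 y0 y1)).toReal := by
            rw [hm, Measure.restrict_eq_self _ hin]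
          rw [hΨ]
          simp only
          rw [k4, vol_Op hx.le hy.le, hm]
          obtain ⟨D, hD⟩ : ∃ D : ℝ, D = (volume (u '' Op x0 x1 y0 y1)).toReal := ⟨_, rfl⟩
          have hD0 : 0 ≤ D := by rw [hD]; exact ENNReal.toReal_nonneg
          rw [← hD] at hb2 ⊢
          obtain ⟨a, ha⟩ : ∃ a : ℝ, a = (x1 - x0) * (y1 - y0) := ⟨_, rfl⟩
          rw [← ha] at k3 ⊢
          have ha0 : 0 ≤ a := by rw [ha]; exact mul_nonneg (by linarith) (by linarith)
          have k5 : 2 * (s * l ^ 2) ≤ c1 * a := by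
            rw [hc1]
            calc 2 * (s * l ^ 2) ≤ 2 * (s * (2 * a)) := by gcongr
              _ = (4 * s) * a := by ring
              _ ≤ (100 * (1 + C) * (η + s)) * a := by
                  refine mul_le_mul_of_nonneg_right ?_ ha0
                  have q1 : (4 : ℝ) ≤ 100 * (1 + C) := by linarith
                  have q2 : s ≤ η + s := by linarith
                  exact mul_le_mul q1 q2 hs0.le (by positivity)
              _ = _ := by ring
          have k6 : 2 * (b ^ 2 / s) ≤ c2 * D := by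
            rw [hb2, hc2]
            calc 2 * (C * D / s) = (2 * C) / s * D := by ring
              _ ≤ 4 * (1 + C) / s * D := by
                  have q : 2 * C ≤ 4 * (1 + C) := by linarith
                  exact mul_le_mul_of_nonneg_right (div_le_div_of_nonneg_right q hs0.le) hD0
          have k7 : 0 ≤ c1 * D := mul_nonneg hc10 hD0
          have k8 : 0 ≤ c2 * ((volume.restrict O1) (Op x0 x1 y0 y1)).toReal :=
            mul_nonneg hc20 ENNReal.toReal_nonneg
          have k9 : l * b = b * l := mul_comm _ _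
          rw [k9] at k1
          linarith
        · obtain ⟨T, k, hTd, hTk⟩ := hT z hz hz1 hz2
          have hlit := (hasFDerivAt_iff_isLittleO.1 hTd).def hs0
          obtain ⟨ρ, hρ, hball⟩ := Metric.eventually_nhds_iff.1 hlit
          refine ⟨ρ / 2, by positivity, ?_⟩
          intro x0 x1 y0 y1 hzQ _ hx hy hxρ hyρ h1 h2
          obtain ⟨b, hb0, hb2, hb⟩ := gen x0 x1 y0 y1 hzQ hx hy h1 h2
          obtain ⟨l, hl⟩ : ∃ l : ℝ, l = max (x1 - x0) (y1 - y0) := ⟨_, rfl⟩
          have hxl : x1 - x0 ≤ l := by rw [hl]; exact le_max_left _ _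
          have hyl : y1 - y0 ≤ l := by rw [hl]; exact le_max_right _ _
          have hlρ : l < ρ / 2 := by rw [hl]; exact max_lt hxρ hyρ
          have hk : ∀ w ∈ Rect x0 x1 y0 y1,
              ‖u w - u z - k * (w - z)‖ ≤ (η * ‖k‖ + s) * ‖w - z‖ := by
            intro w hw
            have j1 : dist w z < ρ := by
              rw [dist_eq_norm]
              have := Rect_dist hxl hyl hzQ hw
              linarith
            have j2 := hball j1
            have j3 := hTk (w - z)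
            have j4 : u w - u z - k * (w - z) =
                (u w - u z - T (w - z)) + (T (w - z) - k * (w - z)) := by ring
            rw [j4]
            refine (norm_add_le _ _).trans ?_
            have j5 : (η * ‖k‖ + s) * ‖w - z‖ = s * ‖w - z‖ + η * ‖k‖ * ‖w - z‖ := by ring
            rw [j5]
            exact add_le_add j2 j3
          have k1 := loc3 u.continuous hx hy h1 h2 hl hzQ hb hs0 hs1 hη0 hη1 hk
          rw [hΨ]
          simp only
          rw [vol_Op hx.le hy.le, hm]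
          obtain ⟨D, hD⟩ : ∃ D : ℝ, D = (volume (u '' Op x0 x1 y0 y1)).toReal := ⟨_, rfl⟩
          have hD0 : 0 ≤ D := by rw [hD]; exact ENNReal.toReal_nonneg
          rw [← hD] at hb2 ⊢
          obtain ⟨a, ha⟩ : ∃ a : ℝ, a = (x1 - x0) * (y1 - y0) := ⟨_, rfl⟩
          rw [← ha] at k1 ⊢
          have ha0 : 0 ≤ a := by rw [ha]; exact mul_nonneg (by linarith) (by linarith)
          have k5 : (96 * η + 16 * s) * a ≤ c1 * a := by
            refine mul_le_mul_of_nonneg_right ?_ ha0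
            rw [hc1]
            have q1 : 0 ≤ C * (η + s) := by positivity
            linarith
          have k6 : 16 * η * b ^ 2 ≤ c1 * D := by
            rw [hb2, hc1]
            calc 16 * η * (C * D) = (16 * C * η) * D := by ring
              _ ≤ (100 * (1 + C) * (η + s)) * D := by
                  refine mul_le_mul_of_nonneg_right ?_ hD0
                  have q1 : 16 * C ≤ 100 * (1 + C) := by linarith
                  have q2 : η ≤ η + s := by linarith
                  exact mul_le_mul q1 q2 hη0.le (by positivity)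
              _ = _ := by ring
          have k8 : 0 ≤ c2 * ((volume.restrict O1 (Op x0 x1 y0 y1)).toReal +
              ((volume.restrict O2).map u.symm (Op x0 x1 y0 y1)).toReal) :=
            mul_nonneg hc20 (add_nonneg ENNReal.toReal_nonneg ENNReal.toReal_nonneg)
          linarith
  -- the final estimate
  refine hkey.trans ?_
  rw [hΨ]
  simp only
  have f0 : (volume (Op X0 X1 Y0 Y1)).toReal ≤ max A 0 := by
    rw [vol_Op hX.le hY.le]
    exact hA.trans (le_max_left _ _)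
  have f2 : (volume.map u.symm (Op X0 X1 Y0 Y1)).toReal ≤ max V 0 := by
    rw [hm]
    refine ENNReal.toReal_le_of_le_ofReal (le_max_right _ _) ?_
    refine (measure_mono (Set.image_mono (Op_sub X0 X1 Y0 Y1))).trans (hV.trans ?_)
    exact ENNReal.ofReal_le_ofReal (le_max_left _ _)
  have f1 : (volume.restrict O1 (Op X0 X1 Y0 Y1)).toReal ≤ 2 * η := by
    refine ENNReal.toReal_le_of_le_ofReal (by positivity) ?_
    rw [Measure.restrict_apply (Op_open _ _ _ _).measurableSet]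
    exact (measure_mono Set.inter_subset_right).trans hv1'
  have f3 : ((volume.restrict O2).map u.symm (Op X0 X1 Y0 Y1)).toReal ≤ 2 * η := by
    refine ENNReal.toReal_le_of_le_ofReal (by positivity) ?_
    rw [hm]
    calc (volume.restrict O2) (u '' Op X0 X1 Y0 Y1) ≤ (volume.restrict O2) Set.univ :=
          measure_mono (Set.subset_univ _)
      _ = volume O2 := Measure.restrict_apply_univ _
      _ ≤ _ := hv2'
  have g1 : c1 * ((volume (Op X0 X1 Y0 Y1)).toReal +
      (volume.map u.symm (Op X0 X1 Y0 Y1)).toReal) ≤ c1 * B := by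
    rw [hBd]
    exact mul_le_mul_of_nonneg_left (add_le_add f0 f2) hc10
  have g2 : c2 * ((volume.restrict O1 (Op X0 X1 Y0 Y1)).toReal +
        ((volume.restrict O2).map u.symm (Op X0 X1 Y0 Y1)).toReal) ≤ c2 * (2 * η + 2 * η) :=
    mul_le_mul_of_nonneg_left (add_le_add f1 f3) hc20
  have g3 : c1 * B ≤ δ / 2 := by
    rw [hc1]
    calc 100 * (1 + C) * (η + s) * B ≤ 100 * (1 + C) * (s + s) * (B + 1) := by
          gcongr
          linarith
      _ = s * (400 * (1 + C) * (B + 1)) / 2 := by ring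
      _ ≤ δ / 2 := by linarith
  have g4 : c2 * (2 * η + 2 * η) ≤ δ / 4 := by
    rw [hc2]
    calc 4 * (1 + C) / s * (2 * η + 2 * η) = 16 * (1 + C) / s * η := by ring
      _ ≤ 16 * (1 + C) / s * (s * δ / (64 * (1 + C))) := by gcongr
      _ = δ / 4 := by
          field_simp
          norm_num
  linarith

end Pool.Agent.Y445.ST
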