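import Pool.Agent.Y320.ST.Stm

/-!
ST-MOR: the boundary integral of a nearly conformal map is small.
-/

set_option autoImplicit false
open Filter Topology MeasureTheory Metric

namespace Pool.Agent.Y445.ST
open Pool.Agent.Y320.ST

/-- the open rectangle -/
def Op (x0 x1 y0 y1 : ℝ) : Set ℂ := {p : ℂ | x0 < p.re ∧ p.re < x1 ∧ y0 < p.im ∧ p.im < y1}

lemma Op_open (x0 x1 y0 y1 : ℝ) : IsOpen (Op x0 x1 y0 y1) := by
  have h1 : IsOpen {p : ℂ | x0 < p.re} := isOpen_lt continuous_const Complex.continuous_re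
  have h2 : IsOpen {p : ℂ | p.re < x1} := isOpen_lt Complex.continuous_re continuous_const
  have h3 : IsOpen {p : ℂ | y0 < p.im} := isOpen_lt continuous_const Complex.continuous_im
  have h4 : IsOpen {p : ℂ | p.im < y1} := isOpen_lt Complex.continuous_im continuous_const
  exact h1.inter (h2.inter (h3.inter h4))

lemma Op_sub (x0 x1 y0 y1 : ℝ) : Op x0 x1 y0 y1 ⊆ Rect x0 x1 y0 y1 :=
  fun _ hp => ⟨hp.1.le, hp.2.1.le, hp.2.2.1.le, hp.2.2.2.le⟩

lemma Rect_compact (x0 x1 y0 y1 : ℝ) : IsCompact (Rect x0 x1 y0 y1) := by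
  have h1 : IsClosed {p : ℂ | x0 ≤ p.re} := isClosed_le continuous_const Complex.continuous_re
  have h2 : IsClosed {p : ℂ | p.re ≤ x1} := isClosed_le Complex.continuous_re continuous_const
  have h3 : IsClosed {p : ℂ | y0 ≤ p.im} := isClosed_le continuous_const Complex.continuous_im
  have h4 : IsClosed {p : ℂ | p.im ≤ y1} := isClosed_le Complex.continuous_im continuous_const
  refine Metric.isCompact_of_isClosed_isBounded (h1.inter (h2.inter (h3.inter h4))) ?_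
  refine (Metric.isBounded_closedBall (x := (0 : ℂ)) (r := |x0| + |x1| + (|y0| + |y1|))).subset ?_
  rintro p ⟨a1, a2, a3, a4⟩
  rw [mem_closedBall, dist_zero_right]
  refine (Complex.norm_le_abs_re_add_abs_im p).trans (add_le_add ?_ ?_)
  · have b1 := neg_abs_le x0
    have b2 := le_abs_self x1
    have b3 := abs_nonneg x0
    have b4 := abs_nonneg x1
    exact abs_le.2 ⟨by linarith, by linarith⟩
  · have b1 := neg_abs_le y0
    have b2 := le_abs_self y1
    have b3 := abs_nonneg y0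
    have b4 := abs_nonneg y1
    exact abs_le.2 ⟨by linarith, by linarith⟩

lemma vol_Op {x0 x1 y0 y1 : ℝ} (hx : x0 ≤ x1) (hy : y0 ≤ y1) :
    (volume (Op x0 x1 y0 y1)).toReal = (x1 - x0) * (y1 - y0) := by
  have h1 : Op x0 x1 y0 y1 = Complex.measurableEquivRealProd ⁻¹' (Set.Ioo x0 x1 ×ˢ Set.Ioo y0 y1) := by
    ext p
    simp only [Op, Set.mem_ofPred_eq, Set.mem_preimage, Complex.measurableEquivRealProd_apply,
      Set.mem_prod, Set.mem_Ioo]
    tauto
  rw [h1, Complex.volume_preserving_equiv_real_prod.measure_preimage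
    (measurableSet_Ioo.prod measurableSet_Ioo).nullMeasurableSet, Measure.volume_eq_prod,
    Measure.prod_prod, Real.volume_Ioo, Real.volume_Ioo, ENNReal.toReal_mul,
    ENNReal.toReal_ofReal (by linarith), ENNReal.toReal_ofReal (by linarith)]

lemma m_add (ν : Measure ℂ) {A B C : Set ℂ} (hd : Disjoint A B) (hB : MeasurableSet B)
    (hAC : A ⊆ C) (hBC : B ⊆ C) (hC : ν C ≠ ⊤) : (ν A).toReal + (ν B).toReal ≤ (ν C).toReal := by
  have h1 : ν A ≠ ⊤ := ne_top_of_le_ne_top hC (measure_mono hAC)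
  have h2 : ν B ≠ ⊤ := ne_top_of_le_ne_top hC (measure_mono hBC)
  rw [← ENNReal.toReal_add h1 h2, ← measure_union hd hB]
  exact ENNReal.toReal_mono hC (measure_mono (Set.union_subset hAC hBC))

/-- superadditivity in the first direction -/
lemma m_addx (ν : Measure ℂ) (hν : ∀ x0 x1 y0 y1, ν (Op x0 x1 y0 y1) ≠ ⊤) {x0 x1 x2 y0 y1 : ℝ}
    (h1 : x0 ≤ x1) (h2 : x1 ≤ x2) :
    (ν (Op x0 x1 y0 y1)).toReal + (ν (Op x1 x2 y0 y1)).toReal ≤ (ν (Op x0 x2 y0 y1)).toReal := by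
  refine m_add ν ?_ (Op_open _ _ _ _).measurableSet ?_ ?_ (hν _ _ _ _)
  · rw [Set.disjoint_left]
    rintro p ⟨-, a, -⟩ ⟨b, -⟩
    exact absurd a (not_lt.2 b.le)
  · rintro p ⟨a, b, c⟩
    exact ⟨a, b.trans_le h2, c⟩
  · rintro p ⟨a, b, c⟩
    exact ⟨h1.trans_lt a, b, c⟩

/-- superadditivity in the second direction -/
lemma m_addy (ν : Measure ℂ) (hν : ∀ x0 x1 y0 y1, ν (Op x0 x1 y0 y1) ≠ ⊤) {x0 x1 y0 y1 y2 : ℝ}
    (h1 : y0 ≤ y1) (h2 : y1 ≤ y2) :
    (ν (Op x0 x1 y0 y1)).toReal + (ν (Op x0 x1 y1 y2)).toReal ≤ (ν (Op x0 x1 y0 y2)).toReal := by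
  refine m_add ν ?_ (Op_open _ _ _ _).measurableSet ?_ ?_ (hν _ _ _ _)
  · rw [Set.disjoint_left]
    rintro p ⟨-, -, -, a⟩ ⟨-, -, b, -⟩
    exact absurd a (not_lt.2 b.le)
  · rintro p ⟨a, b, c, d⟩
    exact ⟨a, b, c, d.trans_le h2⟩
  · rintro p ⟨a, b, c, d⟩
    exact ⟨a, b, h1.trans_lt c, d⟩

/-! ### the boundary integral -/

lemma ii_x {f : ℂ → ℂ} (hf : Continuous f) (y a b : ℝ) :
    IntervalIntegrable (fun x : ℝ => f (x + y * Complex.I)) volume a b :=
  Continuous.intervalIntegrable (hf.comp (by fun_prop)) a b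

lemma ii_y {f : ℂ → ℂ} (hf : Continuous f) (x a b : ℝ) :
    IntervalIntegrable (fun y : ℝ => f (x + y * Complex.I)) volume a b :=
  Continuous.intervalIntegrable (hf.comp (by fun_prop)) a b

lemma rectInt_addx {f : ℂ → ℂ} (hf : Continuous f) (x0 x1 x2 y0 y1 : ℝ) :
    rectInt f x0 x2 y0 y1 = rectInt f x0 x1 y0 y1 + rectInt f x1 x2 y0 y1 := by
  unfold rectInt
  rw [← intervalIntegral.integral_add_adjacent_intervals (ii_x hf y0 x0 x1) (ii_x hf y0 x1 x2),
    ← intervalIntegral.integral_add_adjacent_intervals (ii_x hf y1 x0 x1) (ii_x hf y1 x1 x2)]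
  ring

lemma rectInt_addy {f : ℂ → ℂ} (hf : Continuous f) (x0 x1 y0 y1 y2 : ℝ) :
    rectInt f x0 x1 y0 y2 = rectInt f x0 x1 y0 y1 + rectInt f x0 x1 y1 y2 := by
  unfold rectInt
  rw [← intervalIntegral.integral_add_adjacent_intervals (ii_y hf x1 y0 y1) (ii_y hf x1 y1 y2),
    ← intervalIntegral.integral_add_adjacent_intervals (ii_y hf x0 y0 y1) (ii_y hf x0 y1 y2)]
  ring

lemma rectInt_sub {f g : ℂ → ℂ} (hf : Continuous f) (hg : Continuous g) (x0 x1 y0 y1 : ℝ) :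
    rectInt (fun w => f w - g w) x0 x1 y0 y1 = rectInt f x0 x1 y0 y1 - rectInt g x0 x1 y0 y1 := by
  unfold rectInt
  rw [intervalIntegral.integral_sub (ii_x hf y0 x0 x1) (ii_x hg y0 x0 x1),
    intervalIntegral.integral_sub (ii_x hf y1 x0 x1) (ii_x hg y1 x0 x1),
    intervalIntegral.integral_sub (ii_y hf x1 y0 y1) (ii_y hg x1 y0 y1),
    intervalIntegral.integral_sub (ii_y hf x0 y0 y1) (ii_y hg x0 y0 y1)]
  ring

lemma rectInt_aff (a k : ℂ) (x0 x1 y0 y1 : ℝ) :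
    rectInt (fun w => a + k * w) x0 x1 y0 y1 = 0 := by
  have hc : Continuous fun w : ℂ => a + k * w := by fun_prop
  have h1 : (∫ x in x0..x1, (a + k * (x + y0 * Complex.I))) -
      (∫ x in x0..x1, (a + k * (x + y1 * Complex.I))) =
      (x1 - x0) * (k * ((y0 - y1) * Complex.I)) := by
    rw [← intervalIntegral.integral_sub (ii_x hc y0 x0 x1) (ii_x hc y1 x0 x1)]
    have : ∀ x : ℝ, (a + k * (x + y0 * Complex.I)) - (a + k * (x + y1 * Complex.I)) =
        k * ((y0 - y1) * Complex.I) := fun x => by ring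
    simp_rw [this]
    rw [intervalIntegral.integral_const, Complex.real_smul]
    push_cast
    ring
  have h2 : (∫ y in y0..y1, (a + k * (x1 + y * Complex.I))) -
      (∫ y in y0..y1, (a + k * (x0 + y * Complex.I))) = (y1 - y0) * (k * (x1 - x0)) := by
    rw [← intervalIntegral.integral_sub (ii_y hc x1 y0 y1) (ii_y hc x0 y0 y1)]
    have : ∀ y : ℝ, (a + k * (x1 + y * Complex.I)) - (a + k * (x0 + y * Complex.I)) =
        k * (x1 - x0) := fun y => by ring
    simp_rw [this]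
    rw [intervalIntegral.integral_const, Complex.real_smul]
    push_cast
    ring
  unfold rectInt
  rw [h1, add_sub_assoc, ← mul_sub, h2]
  ring

lemma rectInt_bound {f : ℂ → ℂ} {x0 x1 y0 y1 B l : ℝ} (hx : x0 ≤ x1) (hy : y0 ≤ y1)
    (hxl : x1 - x0 ≤ l) (hyl : y1 - y0 ≤ l) (hB0 : 0 ≤ B)
    (hB : ∀ w ∈ Rect x0 x1 y0 y1, ‖f w‖ ≤ B) : ‖rectInt f x0 x1 y0 y1‖ ≤ 4 * (l * B) := by
  have hxb : ∀ y : ℝ, y0 ≤ y → y ≤ y1 → ‖∫ x in x0..x1, f (x + y * Complex.I)‖ ≤ l * B := by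
    intro y h1 h2
    refine (intervalIntegral.norm_integral_le_of_norm_le_const (C := B) fun x h => ?_).trans ?_
    · rw [Set.uIoc_of_le hx, Set.mem_Ioc] at h
      refine hB _ ⟨?_, ?_, ?_, ?_⟩ <;> simp <;> linarith [h.1, h.2]
    · rw [abs_of_nonneg (by linarith), mul_comm]
      exact mul_le_mul_of_nonneg_right hxl hB0
  have hyb : ∀ x : ℝ, x0 ≤ x → x ≤ x1 → ‖∫ y in y0..y1, f (x + y * Complex.I)‖ ≤ l * B := by
    intro x h1 h2
    refine (intervalIntegral.norm_integral_le_of_norm_le_const (C := B) fun y h => ?_).trans ?_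
    · rw [Set.uIoc_of_le hy, Set.mem_Ioc] at h
      refine hB _ ⟨?_, ?_, ?_, ?_⟩ <;> simp <;> linarith [h.1, h.2]
    · rw [abs_of_nonneg (by linarith), mul_comm]
      exact mul_le_mul_of_nonneg_right hyl hB0
  have a1 := hxb y0 le_rfl hy
  have a2 := hxb y1 hy le_rfl
  have a3 := hyb x1 hx le_rfl
  have a4 := hyb x0 le_rfl hx
  unfold rectInt
  refine (norm_sub_le _ _).trans ?_
  have b1 := norm_add_le ((∫ x in x0..x1, f (x + y0 * Complex.I)) -
    (∫ x in x0..x1, f (x + y1 * Complex.I)))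
    (Complex.I * (∫ y in y0..y1, f (x1 + y * Complex.I)))
  have b2 := norm_sub_le (∫ x in x0..x1, f (x + y0 * Complex.I))
    (∫ x in x0..x1, f (x + y1 * Complex.I))
  rw [norm_mul, Complex.norm_I, one_mul] at b1 ⊢
  linarith

lemma amgm {a b s : ℝ} (hs : 0 < s) : 4 * (a * b) ≤ 2 * (a ^ 2 / s) + 2 * (s * b ^ 2) := by
  have h1 : a ^ 2 / s + s * b ^ 2 - 2 * (a * b) = (a - s * b) ^ 2 / s := by
    field_simp
    ring
  have h2 : 0 ≤ (a - s * b) ^ 2 / s := by positivity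
  linarith

/-- points of small rectangles are close -/
lemma Rect_dist {x0 x1 y0 y1 l : ℝ} (hxl : x1 - x0 ≤ l) (hyl : y1 - y0 ≤ l) {z w : ℂ}
    (hz : z ∈ Rect x0 x1 y0 y1) (hw : w ∈ Rect x0 x1 y0 y1) : ‖w - z‖ ≤ 2 * l := by
  obtain ⟨a1, a2, a3, a4⟩ := hz
  obtain ⟨b1, b2, b3, b4⟩ := hw
  have h1 := Complex.norm_le_abs_re_add_abs_im (w - z)
  rw [Complex.sub_re, Complex.sub_im] at h1
  have h2 : |w.re - z.re| ≤ l := abs_le.2 ⟨by linarith, by linarith⟩
  have h3 : |w.im - z.im| ≤ l := abs_le.2 ⟨by linarith, by linarith⟩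
  linarith

/-- a point at distance at least half of the longest side -/
lemma Rect_far {x0 x1 y0 y1 l : ℝ} (hx : x0 ≤ x1) (hy : y0 ≤ y1)
    (hl : l = max (x1 - x0) (y1 - y0)) {z : ℂ} (hz : z ∈ Rect x0 x1 y0 y1) :
    ∃ w ∈ Rect x0 x1 y0 y1, l / 2 ≤ ‖w - z‖ ∧ ‖w - z‖ ≤ l := by
  obtain ⟨a1, a2, a3, a4⟩ := hz
  have hxl : x1 - x0 ≤ l := by rw [hl]; exact le_max_left _ _
  have hyl : y1 - y0 ≤ l := by rw [hl]; exact le_max_right _ _
  rcases le_total (y1 - y0) (x1 - x0) with h | h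
  · rw [max_eq_left h] at hl
    by_cases h2 : l / 2 ≤ x1 - z.re
    · refine ⟨⟨x1, z.im⟩, ⟨hx, le_rfl, a3, a4⟩, ?_⟩
      have e : (⟨x1, z.im⟩ - z : ℂ) = ((x1 - z.re : ℝ) : ℂ) := by
        apply Complex.ext <;> simp
      rw [e, Complex.norm_real, Real.norm_eq_abs, abs_of_nonneg (by linarith)]
      exact ⟨h2, by linarith⟩
    · push Not at h2
      refine ⟨⟨x0, z.im⟩, ⟨le_rfl, hx, a3, a4⟩, ?_⟩
      have e : (⟨x0, z.im⟩ - z : ℂ) = ((x0 - z.re : ℝ) : ℂ) := by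
        apply Complex.ext <;> simp
      rw [e, Complex.norm_real, Real.norm_eq_abs, abs_of_nonpos (by linarith)]
      exact ⟨by linarith, by linarith⟩
  · rw [max_eq_right h] at hl
    by_cases h2 : l / 2 ≤ y1 - z.im
    · refine ⟨⟨z.re, y1⟩, ⟨a1, a2, hy, le_rfl⟩, ?_⟩
      have e : (⟨z.re, y1⟩ - z : ℂ) = ((y1 - z.im : ℝ) : ℂ) * Complex.I := by
        apply Complex.ext <;> simp
      rw [e, norm_mul, Complex.norm_I, mul_one, Complex.norm_real, Real.norm_eq_abs,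
        abs_of_nonneg (by linarith)]
      exact ⟨h2, by linarith⟩
    · push Not at h2
      refine ⟨⟨z.re, y0⟩, ⟨a1, a2, le_rfl, hy⟩, ?_⟩
      have e : (⟨z.re, y0⟩ - z : ℂ) = ((y0 - z.im : ℝ) : ℂ) * Complex.I := by
        apply Complex.ext <;> simp
      rw [e, norm_mul, Complex.norm_I, mul_one, Complex.norm_real, Real.norm_eq_abs,
        abs_of_nonpos (by linarith)]
      exact ⟨by linarith, by linarith⟩

end Pool.Agent.Y445.ST
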